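import Pool.Agent.V1175.FatPol

/-!
# The value of the limit of the normalized polarization constants of fat Cantor sets (Q2)
-/

set_option autoImplicit false

namespace Pool.Agent.Results.MP_efb919_an.LimitValue

open Filter Topology MeasureTheory Pool.Agent.V1175.FatPol
open scoped ENNReal

/-- `pol_s(K;N)`: supremum over `N`-point configurations in `K` of the infimum over `y ∈ K` of
`∑ |y - x_j|^{-s}`, with values in `[0, ∞]`. -/
noncomputable def polarization (K : Set ℝ) (s : ℝ) (N : ℕ) : ℝ≥0∞ :=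
  ⨆ (x : Fin N → ℝ) (_ : ∀ i, x i ∈ K), ⨅ y ∈ K, ∑ j, (ENNReal.ofReal |y - x j|) ^ (-s)

theorem half_sum {s : ℝ} (hs : 1 < s) :
    2 * ∑' i : ℕ, ((i : ℝ) + 1 / 2) ^ (-s) = 2 * (2 ^ s - 1) * ∑' n : ℕ, ((n : ℝ) + 1) ^ (-s) := by
  have hsum : Summable fun n : ℕ => ((n : ℝ) + 1) ^ (-s) := by
    have h1 := (summable_nat_add_iff 1).2 (Real.summable_nat_rpow.2 (by linarith : -s < -1))
    refine h1.congr fun n => ?_
    push_cast; rfl
  have he : Summable fun i : ℕ => (((2 * i : ℕ) : ℝ) + 1) ^ (-s) :=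
    hsum.comp_injective (fun a b h => by simpa using h)
  have ho : Summable fun i : ℕ => (((2 * i + 1 : ℕ) : ℝ) + 1) ^ (-s) :=
    hsum.comp_injective (fun a b h => by simpa using h)
  have hsplit := tsum_even_add_odd (f := fun n : ℕ => ((n : ℝ) + 1) ^ (-s)) he ho
  have h1 : ∑' i : ℕ, ((i : ℝ) + 1 / 2) ^ (-s) = 2 ^ s * ∑' i : ℕ, (((2 * i : ℕ) : ℝ) + 1) ^ (-s) := by
    rw [← tsum_mul_left]
    apply tsum_congr
    intro i
    have : ((i : ℝ) + 1 / 2) = (((2 * i : ℕ) : ℝ) + 1) / 2 := by push_cast; ring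
    rw [this, Real.div_rpow (by positivity) (by norm_num), Real.rpow_neg (by norm_num : (0:ℝ) ≤ 2)]
    field_simp
  have h2 : ∑' i : ℕ, (((2 * i + 1 : ℕ) : ℝ) + 1) ^ (-s) = 2 ^ (-s) * ∑' n : ℕ, ((n : ℝ) + 1) ^ (-s) := by
    rw [← tsum_mul_left]
    apply tsum_congr
    intro i
    rw [← Real.mul_rpow (by norm_num) (by positivity)]
    congr 1
    push_cast; ring
  rw [h2] at hsplit
  have h3 : ∑' i : ℕ, (((2 * i : ℕ) : ℝ) + 1) ^ (-s) =
      (1 - 2 ^ (-s)) * ∑' n : ℕ, ((n : ℝ) + 1) ^ (-s) := by linarith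
  rw [h1, h3]
  have h4 : (2 : ℝ) ^ s * 2 ^ (-s) = 1 := by
    rw [← Real.rpow_add (by norm_num)]; simp
  linear_combination (-2 * ∑' n : ℕ, ((n : ℝ) + 1) ^ (-s)) * h4

theorem zeta_re {s : ℝ} (hs : 1 < s) :
    (riemannZeta (s : ℂ)).re = ∑' n : ℕ, ((n : ℝ) + 1) ^ (-s) := by
  rw [zeta_eq_tsum_one_div_nat_add_one_cpow (by simpa using hs)]
  have h : ∀ n : ℕ, 1 / ((n : ℂ) + 1) ^ (s : ℂ) = (((((n : ℝ) + 1) ^ (-s) : ℝ)) : ℂ) := by
    intro n
    rw [Real.rpow_neg (by positivity), Complex.ofReal_inv, Complex.ofReal_cpow (by positivity)]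
    push_cast
    rw [one_div]
  simp only [h]
  rw [← Complex.ofReal_tsum, Complex.ofReal_re]

theorem result (K : Set ℝ) (h01 : K ⊆ Set.Icc (0 : ℝ) 1) (hne : K.Nonempty) (hK : IsCompact K)
    (hpos : 0 < volume K) (s : ℝ) (hs : 1 < s) :
    Tendsto (fun N : ℕ => polarization K s N / (N : ℝ≥0∞) ^ s) atTop
      (𝓝 (ENNReal.ofReal (2 * (2 ^ s - 1) * (riemannZeta (s : ℂ)).re * (volume K).toReal ^ (-s)))) := by
  have hfin := hK.measure_lt_top (μ := (volume : Measure ℝ))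
  have hpos' : 0 < volume.real K := ENNReal.toReal_pos hpos.ne' hfin.ne
  have h := main hK hne h01 hpos' hs
  rw [cinf_eq hs, half_sum hs, ← zeta_re hs, ENNReal.ofReal_rpow_of_pos hpos',
    ← ENNReal.ofReal_mul] at h
  · exact h
  · rw [zeta_re hs]
    have h1 : (1 : ℝ) ≤ 2 ^ s := Real.one_le_rpow (by norm_num) (by linarith)
    have h2 : 0 ≤ ∑' n : ℕ, ((n : ℝ) + 1) ^ (-s) := tsum_nonneg fun n => by positivity
    have h3 : 0 ≤ (2 : ℝ) ^ s - 1 := by linarith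
    positivity

end Pool.Agent.Results.MP_efb919_an.LimitValue
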